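import Pool.Agent.R563.LB.Stm
import Pool.Agent.W964.Si.Bound

set_option autoImplicit false
set_option linter.unusedSectionVars false

/-!
# SetIntersection with private labels of the sets: the lower bound
-/

namespace Pool.Agent.R563.LB

open Finset
open Pool.Agent.W964.Si

/-- the graph of a function, as a subset of `Fin (q * q)` -/
def gr {q : ℕ} (g : Fin q → Fin q) : Finset (Fin (q * q)) :=
  univ.image fun x => finProdFinEquiv (x, g x)

theorem gr_card {q : ℕ} (g : Fin q → Fin q) : (gr g).card ≤ q := by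
  refine Finset.card_image_le.trans ?_
  simp

theorem gr_inter {q : ℕ} (g f : Fin q → Fin q) : gr g ∩ gr f = ∅ ↔ ∀ x, g x ≠ f x := by
  rw [Finset.eq_empty_iff_forall_notMem]
  constructor
  · intro h x hx
    apply h (finProdFinEquiv (x, g x))
    rw [Finset.mem_inter]
    exact ⟨Finset.mem_image.2 ⟨x, Finset.mem_univ _, rfl⟩,
      Finset.mem_image.2 ⟨x, Finset.mem_univ _, by rw [hx]⟩⟩
  · intro h y hy
    rw [Finset.mem_inter] at hy
    obtain ⟨h1, h2⟩ := hy
    obtain ⟨x, _, hx⟩ := Finset.mem_image.1 h1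
    obtain ⟨x', _, hx'⟩ := Finset.mem_image.1 h2
    have h3 := finProdFinEquiv.injective (hx.trans hx'.symm)
    rw [Prod.mk.injEq] at h3
    apply h x
    rw [h3.2, h3.1]

/-- the family of the graphs of the functions `g i` and `f j` -/
def fam {m q : ℕ} (g f : Fin m → Fin q → Fin q) : Fin (m + m) → Finset (Fin (q * q)) :=
  Fin.addCases (fun i => gr (g i)) (fun j => gr (f j))

theorem fam_left {m q : ℕ} (g f : Fin m → Fin q → Fin q) (i : Fin m) :
    fam g f (Fin.castAdd m i) = gr (g i) := Fin.addCases_left i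

theorem fam_right {m q : ℕ} (g f : Fin m → Fin q → Fin q) (i : Fin m) :
    fam g f (Fin.natAdd m i) = gr (f i) := Fin.addCases_right i

theorem fam_sum {m q N : ℕ} (g f : Fin m → Fin q → Fin q) (h : m * (2 * q) ≤ N) :
    ∑ l, (fam g f l).card ≤ N := by
  have h1 : ∀ l ∈ (univ : Finset (Fin (m + m))), (fam g f l).card ≤ q := by
    intro l _
    refine Fin.addCases (fun i => ?_) (fun i => ?_) l
    · rw [fam_left]
      exact gr_card _
    · rw [fam_right]
      exact gr_card _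
  refine (Finset.sum_le_card_nsmul _ _ _ h1).trans ?_
  rw [Finset.card_univ, Fintype.card_fin, smul_eq_mul]
  refine le_trans (le_of_eq ?_) h
  ring

/-- The columns `j` such that the query for `i` and `j` is answered with the empty set by the
partial memory and the given labels. -/
def known {m u S W L : ℕ} (D : LabelDS (m + m) u S W L) (t : ℕ) (v : Fin S → Option (Fin W))
    (a b : Fin m → Fin L) (i : Fin m) : Finset (Fin m) :=
  univ.filter (fun j : Fin m =>
    (D.query (Fin.castAdd m i) (Fin.natAdd m j) (a i) (b j)).prun v t = some ∅)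

theorem exists_partial {N S W L q m k t : ℕ} (D : LabelDS (m + m) (q * q) S W L)
    (hD : ∀ F : Fin (m + m) → Finset (Fin (q * q)), ∑ l, (F l).card ≤ N → ∀ i j,
      (D.query i j (D.label F i) (D.label F j)).out (D.memory F) = F i ∩ F j)
    (hprobe : ∀ F : Fin (m + m) → Finset (Fin (q * q)), ∑ l, (F l).card ≤ N → ∀ i j,
      F i ∩ F j = ∅ → (D.query i j (D.label F i) (D.label F j)).probes (D.memory F) ≤ t)
    (hN : m * (2 * q) ≤ N) (hm : 1 ≤ m)
    (ht : 1 ≤ t) (f : Fin m → Fin q → Fin q)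
    (p : ℝ) (hp : 0 < p) (hp1 : p ≤ 1) (hk : 8 * (k : ℝ) ≤ (p / (64 * t)) ^ t * m)
    (g : Fin m → Fin q → Fin q)
    (hg : ∀ i, (m : ℝ) / 8 ≤ ((univ.filter (fun j : Fin m => ∀ x, g i x ≠ f j x)).card : ℝ)) :
    ∃ (v : Fin S → Option (Fin W)) (I : Finset (Fin m)) (a b : Fin m → Fin L),
      (univ.filter (fun c => v c ≠ none)).card ≤ ⌊(t : ℝ) * (m + 2 * p * (S + 1))⌋₊ ∧
      (m : ℝ) / 2 ≤ I.card ∧ (∀ i ∈ I, k ≤ (known D t v a b i).card) ∧
      ∀ i ∈ I, ∀ j ∈ known D t v a b i, ∀ x, g i x ≠ f j x := by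
  classical
  have hmR : (1 : ℝ) ≤ m := by exact_mod_cast hm
  have htR : (1 : ℝ) ≤ t := by exact_mod_cast ht
  obtain ⟨F, hF⟩ : ∃ F, F = fam g f := ⟨_, rfl⟩
  have hsum : ∑ l, (F l).card ≤ N := by
    rw [hF]
    exact fam_sum g f hN
  obtain ⟨mem, hmem⟩ : ∃ mem, mem = D.memory F := ⟨_, rfl⟩
  obtain ⟨a, ha⟩ : ∃ a : Fin m → Fin L, a = fun i => D.label F (Fin.castAdd m i) := ⟨_, rfl⟩
  obtain ⟨b, hb⟩ : ∃ b : Fin m → Fin L, b = fun j => D.label F (Fin.natAdd m j) := ⟨_, rfl⟩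
  have hai : ∀ i, D.label F (Fin.castAdd m i) = a i := fun i => by rw [ha]
  have hbj : ∀ j, D.label F (Fin.natAdd m j) = b j := fun j => by rw [hb]
  obtain ⟨c, hc⟩ : ∃ c : ℕ → Fin m → Fin m → Option (Fin S), c = fun (l : ℕ) (i j : Fin m) =>
    ((D.query (Fin.castAdd m i) (Fin.natAdd m j) (a i) (b j)).path mem)[l]? := ⟨_, rfl⟩
  obtain ⟨E, hE⟩ : ∃ E : Fin m → Finset (Fin m), E = fun i =>
    univ.filter (fun j : Fin m => ∀ x, g i x ≠ f j x) := ⟨_, rfl⟩
  obtain ⟨R, I, hR, hI, hRI⟩ := levels m t hm ht (Fintype.card_fin m) p hp hp1 E c t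
  rw [Fintype.card_option, Fintype.card_fin] at hR
  have hinter : ∀ i j : Fin m,
      F (Fin.castAdd m i) ∩ F (Fin.natAdd m j) = ∅ ↔ ∀ x, g i x ≠ f j x := by
    intro i j
    rw [hF, fam_left, fam_right]
    exact gr_inter _ _
  obtain ⟨v, hv⟩ : ∃ v : Fin S → Option (Fin W), v = fun c =>
    if some c ∈ R then some (mem c) else none := ⟨_, rfl⟩
  have hsound : ∀ c u, v c = some u → mem c = u := by
    intro c u hcu
    rw [hv] at hcu
    dsimp only at hcu
    by_cases hcR : some c ∈ R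
    · rw [if_pos hcR] at hcu
      exact Option.some.inj hcu
    · rw [if_neg hcR] at hcu
      exact absurd hcu (by simp)
  refine ⟨v, I, a, b, ?_, ?_, ?_, ?_⟩
  · have h1 : (univ.filter (fun c => v c ≠ none)).card ≤ R.card := by
      refine Finset.card_le_card_of_injOn (fun c => some c) ?_ ?_
      · intro c hcv
        have h2 : v c ≠ none := (Finset.mem_filter.1 hcv).2
        by_contra hcR
        apply h2
        rw [hv]
        exact if_neg hcR
      · intro a _ b _ hab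
        exact Option.some.inj hab
    refine h1.trans (Nat.le_floor ?_)
    have h2 : (((S + 1 : ℕ) : ℝ)) = (S : ℝ) + 1 := by push_cast; ring
    rw [h2] at hR
    exact hR
  · have h1 : (t : ℝ) * (m / (2 * t)) = m / 2 := by
      field_simp
    rw [h1] at hI
    linarith
  · intro i hi
    have h1 := hRI i hi
    have h2 : (m : ℝ) / 8 ≤ ((E i).card : ℝ) := by
      rw [hE]
      exact hg i
    have h3 : 0 ≤ (p / (64 * (t : ℝ))) ^ t := by positivity
    have h4 : ((E i).filter (fun j => ∀ l' < t, c l' i j ∈ R)).card ≤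
        (known D t v a b i).card := by
      refine Finset.card_le_card ?_
      intro j hj
      rw [Finset.mem_filter] at hj
      obtain ⟨hjE, hjR⟩ := hj
      have hav : ∀ x, g i x ≠ f j x := by
        rw [hE] at hjE
        exact (Finset.mem_filter.1 hjE).2
      have hempty := (hinter i j).2 hav
      have hpr := hprobe F hsum (Fin.castAdd m i) (Fin.natAdd m j) hempty
      have hout := hD F hsum (Fin.castAdd m i) (Fin.natAdd m j)
      rw [hempty] at hout
      rw [known, Finset.mem_filter]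
      refine ⟨Finset.mem_univ _, ?_⟩
      rw [← hmem, hai, hbj] at hpr hout
      have h5 := Alg.prun_complete v mem t
        (D.query (Fin.castAdd m i) (Fin.natAdd m j) (a i) (b j)) ?_ hpr
      · rw [h5, hout]
      · intro c' hc'
        obtain ⟨l, hl⟩ := List.mem_iff_getElem?.1 hc'
        have hlt : l < t := by
          have h6 := Alg.path_length mem
            (D.query (Fin.castAdd m i) (Fin.natAdd m j) (a i) (b j))
          by_contra hcon
          rw [List.getElem?_eq_none (by omega)] at hl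
          exact absurd hl (by simp)
        have h7 := hjR l hlt
        rw [hc] at h7
        dsimp only at h7
        rw [hl] at h7
        rw [hv]
        exact if_pos h7
    have h5 : (k : ℝ) ≤ ((known D t v a b i).card : ℝ) := by
      have h6 : (((E i).filter (fun j => ∀ l' < t, c l' i j ∈ R)).card : ℝ) ≤
          ((known D t v a b i).card : ℝ) := by exact_mod_cast h4
      have h7 : (p / (64 * (t : ℝ))) ^ t * (m / 8) ≤ (p / (64 * (t : ℝ))) ^ t * (E i).card :=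
        mul_le_mul_of_nonneg_left h2 h3
      nlinarith
    exact_mod_cast h5
  · intro i _ j hj
    rw [known, Finset.mem_filter] at hj
    have h1 := Alg.prun_sound v mem hsound t _ _ hj.2
    have hout := hD F hsum (Fin.castAdd m i) (Fin.natAdd m j)
    rw [hai, hbj, ← hmem, h1] at hout
    exact (hinter i j).1 hout.symm

theorem count_bound {N S W L q m d k t : ℕ} (D : LabelDS (m + m) (q * q) S W L)
    (hD : ∀ F : Fin (m + m) → Finset (Fin (q * q)), ∑ l, (F l).card ≤ N → ∀ i j,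
      (D.query i j (D.label F i) (D.label F j)).out (D.memory F) = F i ∩ F j)
    (hprobe : ∀ F : Fin (m + m) → Finset (Fin (q * q)), ∑ l, (F l).card ≤ N → ∀ i j,
      F i ∩ F j = ∅ → (D.query i j (D.label F i) (D.label F j)).probes (D.memory F) ≤ t)
    (hq : 4 ≤ q) (hN : m * (2 * q) ≤ N) (hm : 1 ≤ m) (hL : 1 ≤ L)
    (ht : 1 ≤ t) (f : Fin m → Fin q → Fin q)
    (hf : ∀ j j', j ≠ j' → (univ.filter (fun x => f j x = f j' x)).card ≤ d)
    (hkd : 2 * (k * d) ≤ q)
    (p : ℝ) (hp : 0 < p) (hp1 : p ≤ 1) (hk : 8 * (k : ℝ) ≤ (p / (64 * t)) ^ t * m) :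
    (k : ℝ) * m / 4 ≤ m * Real.log 16 + 2 * (m * Real.log L) +
      t * (m + 2 * p * (S + 1)) * Real.log ((S : ℝ) * W + 1) := by
  classical
  have hmR : (1 : ℝ) ≤ m := by exact_mod_cast hm
  have htR : (1 : ℝ) ≤ t := by exact_mod_cast ht
  have hqR : (4 : ℝ) ≤ q := by exact_mod_cast hq
  have hLR : (1 : ℝ) ≤ L := by exact_mod_cast hL
  have hqq : (0 : ℝ) < (q : ℝ) ^ q := by positivity
  obtain ⟨K0, hK0⟩ : ∃ K0 : ℕ, K0 = ⌊(t : ℝ) * (m + 2 * p * (S + 1))⌋₊ := ⟨_, rfl⟩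
  obtain ⟨G, hG⟩ : ∃ G : Finset (Fin q → Fin q), G = univ.filter (fun g : Fin q → Fin q =>
      (m : ℝ) / 8 ≤ ((univ.filter (fun j : Fin m => ∀ x, g x ≠ f j x)).card : ℝ)) := ⟨_, rfl⟩
  have hGc : (q : ℝ) ^ q / 8 ≤ (G.card : ℝ) := by rw [hG]; exact many_avoid q m hq hm f
  obtain ⟨V, hV⟩ : ∃ V : Finset (Fin S → Option (Fin W)), V = univ.filter (fun v =>
    (univ.filter (fun c => v c ≠ none)).card ≤ K0) := ⟨_, rfl⟩
  obtain ⟨A, hA⟩ : ∃ A : (Fin S → Option (Fin W)) ×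
      (Finset (Fin m) × (Fin m → Fin L) × (Fin m → Fin L)) →
      Finset (Fin m → Fin q → Fin q), A = fun vI =>
        if (m : ℝ) / 2 ≤ vI.2.1.card ∧
            ∀ i ∈ vI.2.1, k ≤ (known D t vI.1 vI.2.2.1 vI.2.2.2 i).card then
          Fintype.piFinset (fun i => if i ∈ vI.2.1 then
            univ.filter (fun g : Fin q → Fin q =>
              ∀ j ∈ known D t vI.1 vI.2.2.1 vI.2.2.2 i, ∀ x, g x ≠ f j x)
            else univ) else ∅ := ⟨_, rfl⟩
  have hsub : Fintype.piFinset (fun _ : Fin m => G) ⊆ (V ×ˢ univ).biUnion A := by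
    intro g hg
    rw [Fintype.mem_piFinset] at hg
    obtain ⟨v, I, a, b, hv, hI, hkn, hav⟩ := exists_partial D hD hprobe hN hm ht f
      p hp hp1 hk g (fun i => by
        have h1 := hg i
        rw [hG, Finset.mem_filter] at h1
        exact h1.2)
    rw [Finset.mem_biUnion]
    refine ⟨(v, I, a, b), ?_, ?_⟩
    · rw [Finset.mem_product]
      refine ⟨?_, Finset.mem_univ _⟩
      rw [hV, Finset.mem_filter]
      exact ⟨Finset.mem_univ _, by rw [hK0]; exact hv⟩
    · rw [hA]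
      dsimp only
      rw [if_pos ⟨hI, hkn⟩, Fintype.mem_piFinset]
      intro i
      by_cases hi : i ∈ I
      · rw [if_pos hi, Finset.mem_filter]
        exact ⟨Finset.mem_univ _, hav i hi⟩
      · rw [if_neg hi]
        exact Finset.mem_univ _
  have hAc : ∀ vI, ((A vI).card : ℝ) ≤ ((q : ℝ) ^ q) ^ m * Real.exp (-((k : ℝ) * m / 4)) := by
    intro vI
    rw [hA]
    dsimp only
    split_ifs with hcond
    · obtain ⟨hI, hkn⟩ := hcond
      rw [Fintype.card_piFinset, Nat.cast_prod]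
      have h1 : ∀ i ∈ (univ : Finset (Fin m)), (((if i ∈ vI.2.1 then
            univ.filter (fun g : Fin q → Fin q =>
              ∀ j ∈ known D t vI.1 vI.2.2.1 vI.2.2.2 i, ∀ x, g x ≠ f j x)
            else univ).card : ℕ) : ℝ) ≤
          (q : ℝ) ^ q * (if i ∈ vI.2.1 then Real.exp (-((k : ℝ) / 2)) else 1) := by
        intro i _
        by_cases hi : i ∈ vI.2.1
        · rw [if_pos hi, if_pos hi]
          obtain ⟨J', hJ', hJc⟩ := Finset.exists_subset_card_eq (hkn i hi)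
          have h2 := avoid_count q d (by omega) f hf J' (by rw [hJc]; exact hkd)
          rw [hJc] at h2
          refine le_trans ?_ h2
          have h3 : (univ.filter (fun g : Fin q → Fin q =>
              ∀ j ∈ known D t vI.1 vI.2.2.1 vI.2.2.2 i, ∀ x, g x ≠ f j x)).card ≤
              (univ.filter (fun g : Fin q → Fin q => ∀ j ∈ J', ∀ x, g x ≠ f j x)).card := by
            refine Finset.card_le_card ?_
            intro g hg
            rw [Finset.mem_filter] at hg ⊢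
            exact ⟨hg.1, fun j hj => hg.2 j (hJ' hj)⟩
          exact_mod_cast h3
        · rw [if_neg hi, if_neg hi, mul_one, Finset.card_univ, Fintype.card_fun, Fintype.card_fin]
          push_cast
          exact le_rfl
      refine (Finset.prod_le_prod (fun i _ => by positivity) h1).trans ?_
      rw [Finset.prod_mul_distrib, Finset.prod_const, Finset.card_univ, Fintype.card_fin]
      refine mul_le_mul_of_nonneg_left ?_ (by positivity)
      rw [Finset.prod_ite_mem, Finset.univ_inter, Finset.prod_const, ← Real.exp_nat_mul]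
      apply Real.exp_le_exp.2
      have h4 : (0 : ℝ) ≤ k := Nat.cast_nonneg k
      nlinarith
    · rw [Finset.card_empty, Nat.cast_zero]
      positivity
  have hVc : (V.card : ℝ) ≤ ((S : ℝ) * W + 1) ^ K0 := by
    rw [hV]
    have h1 := card_partial S W K0
    exact_mod_cast h1
  have hmain : ((q : ℝ) ^ q / 8) ^ m ≤
      ((S : ℝ) * W + 1) ^ K0 * (2 ^ m * ((L : ℝ) ^ m * (L : ℝ) ^ m)) *
      (((q : ℝ) ^ q) ^ m * Real.exp (-((k : ℝ) * m / 4))) := by
    have h1 : ((q : ℝ) ^ q / 8) ^ m ≤ ((Fintype.piFinset (fun _ : Fin m => G)).card : ℝ) := by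
      rw [Fintype.card_piFinset, Finset.prod_const, Finset.card_univ, Fintype.card_fin]
      push_cast
      exact pow_le_pow_left₀ (by positivity) hGc m
    have h2 : ((Fintype.piFinset (fun _ : Fin m => G)).card : ℝ) ≤
        (((V ×ˢ univ).biUnion A).card : ℝ) := by
      exact_mod_cast Finset.card_le_card hsub
    have h3 : (((V ×ˢ (univ : Finset (Finset (Fin m) ×
        (Fin m → Fin L) × (Fin m → Fin L)))).biUnion A).card : ℝ) ≤
        ∑ vI ∈ V ×ˢ (univ : Finset (Finset (Fin m) ×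
        (Fin m → Fin L) × (Fin m → Fin L))), ((A vI).card : ℝ) := by
      exact_mod_cast Finset.card_biUnion_le
    have h4 : ∑ vI ∈ V ×ˢ (univ : Finset (Finset (Fin m) ×
        (Fin m → Fin L) × (Fin m → Fin L))), ((A vI).card : ℝ) ≤
        ∑ _vI ∈ V ×ˢ (univ : Finset (Finset (Fin m) ×
        (Fin m → Fin L) × (Fin m → Fin L))),
          ((q : ℝ) ^ q) ^ m * Real.exp (-((k : ℝ) * m / 4)) :=
      Finset.sum_le_sum (fun vI _ => hAc vI)
    rw [Finset.sum_const, Finset.card_product, Finset.card_univ, Fintype.card_prod,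
      Fintype.card_prod, Fintype.card_fun, Fintype.card_fin, Fintype.card_finset,
      Fintype.card_fin, nsmul_eq_mul] at h4
    push_cast at h4
    refine h1.trans (h2.trans (h3.trans (h4.trans ?_)))
    refine mul_le_mul_of_nonneg_right ?_ (by positivity)
    exact mul_le_mul_of_nonneg_right hVc (by positivity)
  have hmain2 : Real.exp ((k : ℝ) * m / 4) ≤
      ((S : ℝ) * W + 1) ^ K0 * (16 ^ m * ((L : ℝ) ^ m * (L : ℝ) ^ m)) := by
    have h1 : ((q : ℝ) ^ q / 8) ^ m * (8 ^ m * Real.exp ((k : ℝ) * m / 4)) ≤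
        ((S : ℝ) * W + 1) ^ K0 * (2 ^ m * ((L : ℝ) ^ m * (L : ℝ) ^ m)) *
        (((q : ℝ) ^ q) ^ m * Real.exp (-((k : ℝ) * m / 4))) *
          (8 ^ m * Real.exp ((k : ℝ) * m / 4)) :=
      mul_le_mul_of_nonneg_right hmain (by positivity)
    have h2 : ((q : ℝ) ^ q / 8) ^ m * (8 ^ m * Real.exp ((k : ℝ) * m / 4)) =
        ((q : ℝ) ^ q) ^ m * Real.exp ((k : ℝ) * m / 4) := by
      rw [← mul_assoc, ← mul_pow]
      congr 2
      field_simp
    have h3 : ((S : ℝ) * W + 1) ^ K0 * (2 ^ m * ((L : ℝ) ^ m * (L : ℝ) ^ m)) *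
        (((q : ℝ) ^ q) ^ m * Real.exp (-((k : ℝ) * m / 4))) *
          (8 ^ m * Real.exp ((k : ℝ) * m / 4)) =
        ((q : ℝ) ^ q) ^ m *
          (((S : ℝ) * W + 1) ^ K0 * (16 ^ m * ((L : ℝ) ^ m * (L : ℝ) ^ m))) := by
      have h4 : Real.exp (-((k : ℝ) * m / 4)) * Real.exp ((k : ℝ) * m / 4) = 1 := by
        rw [← Real.exp_add, neg_add_cancel, Real.exp_zero]
      have h5 : (16 : ℝ) ^ m = 2 ^ m * 8 ^ m := by
        rw [← mul_pow]
        norm_num
      rw [h5]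
      calc ((S : ℝ) * W + 1) ^ K0 * (2 ^ m * ((L : ℝ) ^ m * (L : ℝ) ^ m)) *
          (((q : ℝ) ^ q) ^ m * Real.exp (-((k : ℝ) * m / 4))) *
          (8 ^ m * Real.exp ((k : ℝ) * m / 4)) = ((q : ℝ) ^ q) ^ m *
          (((S : ℝ) * W + 1) ^ K0 * (2 ^ m * 8 ^ m * ((L : ℝ) ^ m * (L : ℝ) ^ m))) *
          (Real.exp (-((k : ℝ) * m / 4)) * Real.exp ((k : ℝ) * m / 4)) := by ring
        _ = _ := by rw [h4, mul_one]
    rw [h2, h3] at h1
    exact le_of_mul_le_mul_left h1 (by positivity)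
  have hSW : (1 : ℝ) ≤ (S : ℝ) * W + 1 := by
    have : (0 : ℝ) ≤ (S : ℝ) * W := by positivity
    linarith
  have hlog := Real.log_le_log (Real.exp_pos _) hmain2
  rw [Real.log_exp, Real.log_mul (by positivity) (by positivity), Real.log_pow,
    Real.log_mul (by positivity) (by positivity), Real.log_mul (by positivity) (by positivity),
    Real.log_pow, Real.log_pow] at hlog
  have hK : (K0 : ℝ) ≤ t * (m + 2 * p * (S + 1)) := by
    rw [hK0]
    exact Nat.floor_le (by positivity)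
  have hl0 : 0 ≤ Real.log ((S : ℝ) * W + 1) := Real.log_nonneg hSW
  have h5 : (K0 : ℝ) * Real.log ((S : ℝ) * W + 1) ≤
      t * (m + 2 * p * (S + 1)) * Real.log ((S : ℝ) * W + 1) :=
    mul_le_mul_of_nonneg_right hK hl0
  linarith

/-- **The lower bound.** -/
theorem lab : S_LAB := by
  intro N S W L t C T hN hW hL ht hCT
  have hNR : (2 : ℝ) ≤ N := by exact_mod_cast hN
  have htR : (1 : ℝ) ≤ t := by exact_mod_cast ht
  have hWR : (1 : ℝ) ≤ W := by exact_mod_cast hW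
  have hLR : (1 : ℝ) ≤ L := by exact_mod_cast hL
  have hSR : (0 : ℝ) ≤ S := Nat.cast_nonneg S
  have hNW : (2 : ℝ) ≤ (N : ℝ) * W := by nlinarith
  have hl2 : Real.log 2 < 0.6931471808 := Real.log_two_lt_d9
  have hl2' : 0 < Real.log 2 := Real.log_pos (by norm_num)
  obtain ⟨ℓ, hℓ⟩ : ∃ ℓ : ℝ, ℓ = Real.logb 2 N := ⟨_, rfl⟩
  have hℓ1 : 1 ≤ ℓ := by
    rw [hℓ, Real.le_logb_iff_rpow_le (by norm_num) (by linarith), Real.rpow_one]
    exact hNR
  obtain ⟨M, hM⟩ : ∃ M : ℝ, M = Real.logb 2 (N * W) := ⟨_, rfl⟩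
  have hM1 : 1 ≤ M := by
    rw [hM, Real.le_logb_iff_rpow_le (by norm_num) (by linarith), Real.rpow_one]
    exact hNW
  obtain ⟨B, hB⟩ : ∃ B : ℝ, B = Real.logb 2 L := ⟨_, rfl⟩
  have hB0 : 0 ≤ B := by
    rw [hB]
    exact Real.logb_nonneg (by norm_num) hLR
  have hLB : Real.log L = B * Real.log 2 := by
    rw [hB, Real.logb, div_mul_cancel₀ _ hl2'.ne']
  have hNM : Real.log (N * W) = M * Real.log 2 := by
    rw [hM, Real.logb, div_mul_cancel₀ _ hl2'.ne']
  obtain ⟨Q, hQ⟩ : ∃ Q : ℝ, Q = B + t * M := ⟨_, rfl⟩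
  have htM : 1 ≤ t * M := by nlinarith
  have hQ1 : 1 ≤ Q := by rw [hQ]; linarith
  rw [← hℓ, ← hM, ← hB, ← hQ]
  have hsplit : (N : ℝ) ^ (1 + 1 / (t : ℝ)) = N * (N : ℝ) ^ (1 / (t : ℝ)) := by
    rw [Real.rpow_add (by linarith), Real.rpow_one]
  have hyN : (N : ℝ) ^ (1 / (t : ℝ)) ≤ N := by
    have h1 : (N : ℝ) ^ (1 / (t : ℝ)) ≤ (N : ℝ) ^ (1 : ℝ) := by
      apply Real.rpow_le_rpow_of_exponent_le (by linarith)
      rw [div_le_one (by linarith)]
      exact htR
    rwa [Real.rpow_one] at h1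
  have htrivial : (N : ℝ) ^ (1 + 1 / (t : ℝ)) ≤ N * N := by
    rw [hsplit]
    exact mul_le_mul_of_nonneg_left hyN (by linarith)
  have hℓ2 : (1 : ℝ) ≤ ℓ ^ 2 := one_le_pow₀ hℓ1
  have hQ3 : (1 : ℝ) ≤ Q ^ 3 := one_le_pow₀ hQ1
  -- the right side
  have hrhs : (10 : ℝ) ^ 12 * t * (N + S) * ℓ ^ 2 * Q ^ 3 =
      10 ^ 12 * (t * ℓ ^ 2 * Q ^ 3) * (N + S) := by ring
  rw [hrhs]
  rcases Nat.lt_or_ge (N ^ 2) S with hS | hS
  · refine ⟨0, 0, fun _ _ => ?_⟩
    have h1 : (N : ℝ) * N ≤ S := by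
      have h2 : (N : ℝ) ^ 2 ≤ S := by exact_mod_cast hS.le
      nlinarith
    have h3 : (1 : ℝ) ≤ 10 ^ 12 * (t * ℓ ^ 2 * Q ^ 3) := by
      have h4 : (1 : ℝ) ≤ t * ℓ ^ 2 * Q ^ 3 :=
        one_le_mul_of_one_le_of_one_le (one_le_mul_of_one_le_of_one_le htR hℓ2) hQ3
      linarith
    have h5 : (N : ℝ) + S ≤ 10 ^ 12 * (t * ℓ ^ 2 * Q ^ 3) * (N + S) :=
      le_mul_of_one_le_left (by linarith) h3
    linarith
  -- the logarithm
  obtain ⟨Λ, hΛ⟩ : ∃ Λ : ℝ, Λ = Real.log ((S : ℝ) * W + 1) := ⟨_, rfl⟩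
  have hΛ0 : 0 ≤ Λ := by
    rw [hΛ]
    apply Real.log_nonneg
    have : (0 : ℝ) ≤ (S : ℝ) * W := by positivity
    linarith
  have hΛM : Λ ≤ 2.1 * M := by
    have h1 : (S : ℝ) * W + 1 ≤ ((N : ℝ) * W) ^ 3 := by
      have h2 : (S : ℝ) ≤ (N : ℝ) ^ 2 := by exact_mod_cast hS
      have h3 : (S : ℝ) * W ≤ (N : ℝ) ^ 2 * W := mul_le_mul_of_nonneg_right h2 (by linarith)
      have h4 : (N : ℝ) ^ 2 * W ≤ ((N : ℝ) * W) ^ 2 := by
        have : (N : ℝ) ^ 2 * W * 1 ≤ (N : ℝ) ^ 2 * W * W :=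
          mul_le_mul_of_nonneg_left hWR (by positivity)
        nlinarith
      have h5 : (2 : ℝ) * ((N : ℝ) * W) ^ 2 ≤ ((N : ℝ) * W) ^ 3 := by
        have : ((N : ℝ) * W) ^ 3 = ((N : ℝ) * W) * ((N : ℝ) * W) ^ 2 := by ring
        rw [this]
        exact mul_le_mul_of_nonneg_right hNW (by positivity)
      have h6 : (1 : ℝ) ≤ ((N : ℝ) * W) ^ 2 := one_le_pow₀ (by linarith)
      linarith
    have h2 := Real.log_le_log (by positivity) h1
    rw [Real.log_pow, ← hΛ, hNM] at h2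
    push_cast at h2
    nlinarith
  have hLB' : Real.log L ≤ 0.7 * B := by
    rw [hLB]
    nlinarith
  have hlL0 : 0 ≤ Real.log L := Real.log_nonneg hLR
  obtain ⟨k, hk⟩ : ∃ k : ℕ, k = ⌊12 + 8 * Real.log L + 8 * (t * Λ)⌋₊ + 1 := ⟨_, rfl⟩
  have htΛ : 0 ≤ (t : ℝ) * Λ := by positivity
  have hk1 : 12 + 8 * Real.log L + 8 * (t * Λ) < k := by
    rw [hk]
    push_cast
    exact Nat.lt_floor_add_one _
  have hk2 : (k : ℝ) ≤ 30 * Q := by
    have h1 : (k : ℝ) ≤ 12 + 8 * Real.log L + 8 * (t * Λ) + 1 := by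
      rw [hk]
      push_cast
      have := Nat.floor_le (by positivity : 0 ≤ 12 + 8 * Real.log L + 8 * ((t : ℝ) * Λ))
      linarith
    have h2 : (t : ℝ) * Λ ≤ t * (2.1 * M) := mul_le_mul_of_nonneg_left hΛM (by linarith)
    rw [hQ]
    linarith
  have hkpos : 1 ≤ k := by omega
  have hkR1 : (1 : ℝ) ≤ k := by exact_mod_cast hkpos
  obtain ⟨d, hd⟩ : ∃ d : ℕ, d = Nat.log 2 N + 1 := ⟨_, rfl⟩
  have hd2 : 2 ≤ d := by
    have : 1 ≤ Nat.log 2 N := Nat.log_pos (by norm_num) hN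
    omega
  have hNd : N < 2 ^ d := by
    rw [hd]
    exact Nat.lt_pow_succ_log_self (by norm_num) N
  have hdℓ : (d : ℝ) ≤ 2 * ℓ := by
    have h2 : ((Nat.log 2 N : ℕ) : ℝ) ≤ ℓ := by
      rw [hℓ, Real.le_logb_iff_rpow_le (by norm_num) (by linarith), Real.rpow_natCast]
      have := Nat.pow_log_le_self 2 (show N ≠ 0 by omega)
      exact_mod_cast this
    rw [hd]
    push_cast
    linarith
  have hQ0 : 2 * (k * d) ≠ 0 := by positivity
  obtain ⟨q, hqp, hq1, hq2⟩ := Nat.exists_prime_lt_and_le_two_mul (2 * (k * d)) hQ0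
  have hq4 : 4 ≤ q := by
    have : 2 ≤ k * d := by nlinarith
    omega
  have hq4R : (4 : ℝ) ≤ q := by exact_mod_cast hq4
  have hqR : (q : ℝ) ≤ 8 * (k * ℓ) := by
    have h1 : (q : ℝ) ≤ 2 * (2 * (k * d)) := by exact_mod_cast hq2
    have h2 : (k : ℝ) * d ≤ k * (2 * ℓ) := mul_le_mul_of_nonneg_left hdℓ (by linarith)
    linarith
  obtain ⟨m, hm⟩ : ∃ m : ℕ, m = N / (2 * q) := ⟨_, rfl⟩
  have hmN : m * (2 * q) ≤ N := by rw [hm]; exact Nat.div_mul_le_self N (2 * q)
  have hNm : N < (m + 1) * (2 * q) := by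
    rw [hm]
    have h1 := Nat.lt_mul_div_succ N (show 0 < 2 * q by omega)
    rw [mul_comm]
    exact h1
  have hNmR : (N : ℝ) ≤ (m + 1) * (2 * q) := by exact_mod_cast hNm.le
  rcases Nat.eq_zero_or_pos m with hm0 | hm1
  · -- small N
    refine ⟨0, 0, fun _ _ => ?_⟩
    rw [hm0] at hNmR
    have h1 : (N : ℝ) ≤ 480 * (ℓ * Q) := by
      have h2 : (k : ℝ) * ℓ ≤ 30 * Q * ℓ := mul_le_mul_of_nonneg_right hk2 (by linarith)
      push_cast at hNmR
      linarith
    have h2 : ℓ * Q ≤ t * ℓ ^ 2 * Q ^ 3 := by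
      have h3 : ℓ ≤ t * ℓ ^ 2 := by
        have h4 : ℓ * 1 ≤ ℓ * ℓ := mul_le_mul_of_nonneg_left hℓ1 (by linarith)
        have h5 : 1 * ℓ ^ 2 ≤ t * ℓ ^ 2 := mul_le_mul_of_nonneg_right htR (by positivity)
        nlinarith
      have h4 : Q ≤ Q ^ 3 := by
        have : Q ^ 1 ≤ Q ^ 3 := pow_le_pow_right₀ hQ1 (by norm_num)
        rwa [pow_one] at this
      exact mul_le_mul h3 h4 (by linarith) (by positivity)
    have h3 : (0 : ℝ) ≤ t * ℓ ^ 2 * Q ^ 3 := by positivity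
    have h4 : (N : ℝ) ≤ 10 ^ 12 * (t * ℓ ^ 2 * Q ^ 3) := by linarith
    refine htrivial.trans ?_
    exact mul_le_mul h4 (by linarith) (by linarith) (by positivity)
  -- the main case
  refine ⟨m + m, q * q, fun D hD => ?_⟩
  have hmR : (1 : ℝ) ≤ m := by exact_mod_cast hm1
  have hN4 : (N : ℝ) ≤ 4 * (m * q) := by
    have h1 : ((m : ℝ) + 1) * (2 * q) ≤ (2 * m) * (2 * q) :=
      mul_le_mul_of_nonneg_right (by linarith) (by linarith)
    linarith
  have hmleN : m ≤ N := by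
    rw [hm]
    exact Nat.div_le_self _ _
  have hmq : m ≤ q ^ d := by
    have h2 : 2 ^ d ≤ q ^ d := Nat.pow_le_pow_left (by omega) d
    omega
  have hdq : d < q := by nlinarith
  obtain ⟨f, hf, hfi⟩ := exists_family q m d hqp hmq hdq
  have hcor : ∀ F : Fin (m + m) → Finset (Fin (q * q)), ∑ l, (F l).card ≤ N → ∀ i j,
      (D.query i j (D.label F i) (D.label F j)).out (D.memory F) = F i ∩ F j :=
    fun F hF i j => (hD F hF i j).1
  have hprobe : ∀ F : Fin (m + m) → Finset (Fin (q * q)), ∑ l, (F l).card ≤ N → ∀ i j,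
      F i ∩ F j = ∅ → (D.query i j (D.label F i) (D.label F j)).probes (D.memory F) ≤ t := by
    intro F hF i j hij
    have h1 := (hD F hF i j).2
    rw [hij, Finset.card_empty, Nat.cast_zero, add_zero] at h1
    have h2 := lt_of_le_of_lt h1 hCT
    have h3 : (D.query i j (D.label F i) (D.label F j)).probes (D.memory F) < t + 1 := by
      exact_mod_cast h2
    omega
  obtain ⟨Z, hZ⟩ : ∃ Z : ℝ, Z = max (S : ℝ) N + 1 := ⟨_, rfl⟩
  have hZS : (S : ℝ) + 1 ≤ Z := by
    rw [hZ]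
    have := le_max_left (S : ℝ) N
    linarith
  have hZN : (N : ℝ) + 1 ≤ Z := by
    rw [hZ]
    have := le_max_right (S : ℝ) N
    linarith
  have hZ2 : Z ≤ 2 * (N + S) := by
    rw [hZ]
    have := max_le (by linarith : (S : ℝ) ≤ N + S) (by linarith : (N : ℝ) ≤ N + S)
    linarith
  have hZ0 : 0 < Z := by linarith
  have hmNR : (m : ℝ) ≤ N := by exact_mod_cast hmleN
  obtain ⟨p, hp⟩ : ∃ p : ℝ, p = m / (2 * Z) := ⟨_, rfl⟩
  have hp0 : 0 < p := by rw [hp]; positivity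
  have hp1 : p ≤ 1 := by
    rw [hp, div_le_one (by linarith)]
    linarith
  have hpZ : p * (2 * Z) = m := by
    rw [hp]
    field_simp
  have hlt : (p / (64 * t)) ^ t * m < 8 * k := by
    by_contra hcon
    rw [not_lt] at hcon
    have h1 := count_bound D hcor hprobe hq4 hmN hm1 hL ht f hf hq1.le p hp0 hp1 hcon
    rw [← hΛ] at h1
    have h2 : 2 * p * ((S : ℝ) + 1) ≤ m := by
      rw [← hpZ]
      have : p * (2 * ((S : ℝ) + 1)) ≤ p * (2 * Z) :=
        mul_le_mul_of_nonneg_left (by linarith) hp0.le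
      linarith
    have h3 : (t : ℝ) * (m + 2 * p * (S + 1)) * Λ ≤ 2 * (m * (t * Λ)) := by
      have h4 : (t : ℝ) * (m + 2 * p * (S + 1)) ≤ t * (2 * m) :=
        mul_le_mul_of_nonneg_left (by linarith) (by linarith)
      have h5 := mul_le_mul_of_nonneg_right h4 hΛ0
      linarith
    have h4 : (m : ℝ) * Real.log 16 < m * 3 :=
      mul_lt_mul_of_pos_left log_sixteen (by linarith)
    have h5 : (12 + 8 * Real.log L + 8 * (t * Λ)) * m ≤ k * m :=
      mul_le_mul_of_nonneg_right hk1.le (by linarith)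
    linarith
  obtain ⟨y, hy⟩ : ∃ y : ℝ, y = (N : ℝ) ^ (1 / (t : ℝ)) := ⟨_, rfl⟩
  have hy0 : 0 ≤ y := by rw [hy]; positivity
  have hyt : y ^ t = N := by
    rw [hy, one_div, Real.rpow_inv_natCast_pow (by linarith) (by omega)]
  have hx : (p * y / (64 * t)) ^ t < 32 * (k * q) := by
    have h1 : (p * y / (64 * t)) ^ t = (p / (64 * t)) ^ t * N := by
      rw [← hyt, ← mul_pow]
      congr 1
      ring
    have h2 : (p / (64 * (t : ℝ))) ^ t * N ≤ (p / (64 * t)) ^ t * (4 * (m * q)) :=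
      mul_le_mul_of_nonneg_left hN4 (by positivity)
    have h3 : (p / (64 * (t : ℝ))) ^ t * m * (4 * q) < 8 * k * (4 * q) :=
      mul_lt_mul_of_pos_right hlt (by linarith)
    rw [h1]
    nlinarith
  have hkq : (1 : ℝ) ≤ k * q := one_le_mul_of_one_le_of_one_le hkR1 (by linarith)
  have hx2 := base_le ht (by linarith) hx
  rw [div_le_iff₀ (by positivity)] at hx2
  have h3 : m * y ≤ 4096 * (k * q * t) * Z := by
    have h4 : p * y * (2 * Z) ≤ 32 * (k * q) * (64 * t) * (2 * Z) :=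
      mul_le_mul_of_nonneg_right hx2 (by linarith)
    have h5 : p * y * (2 * Z) = m * y := by
      have h6 : p * y * (2 * Z) = p * (2 * Z) * y := by ring
      rw [h6, hpZ]
    linarith
  have h5 : (N : ℝ) * y ≤ 16384 * (k * q ^ 2 * t) * Z := by
    have h6 : (N : ℝ) * y ≤ 4 * (m * q) * y := mul_le_mul_of_nonneg_right hN4 hy0
    have h7 : 4 * (q : ℝ) * (m * y) ≤ 4 * q * (4096 * (k * q * t) * Z) :=
      mul_le_mul_of_nonneg_left h3 (by linarith)
    calc (N : ℝ) * y ≤ 4 * (m * q) * y := h6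
      _ = 4 * q * (m * y) := by ring
      _ ≤ 4 * q * (4096 * (k * q * t) * Z) := h7
      _ = _ := by ring
  have h6 : (q : ℝ) ^ 2 ≤ 64 * (k ^ 2 * ℓ ^ 2) := by
    have h1 := pow_le_pow_left₀ (by linarith : (0 : ℝ) ≤ q) hqR 2
    refine h1.trans (le_of_eq ?_)
    ring
  have h7 : (k : ℝ) * q ^ 2 ≤ 64 * (k ^ 3 * ℓ ^ 2) := by
    have h1 : (k : ℝ) * q ^ 2 ≤ k * (64 * (k ^ 2 * ℓ ^ 2)) :=
      mul_le_mul_of_nonneg_left h6 (by linarith)
    refine h1.trans (le_of_eq ?_)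
    ring
  have h8 : (k : ℝ) ^ 3 ≤ 27000 * Q ^ 3 := by
    have h1 := pow_le_pow_left₀ (by linarith : (0 : ℝ) ≤ k) hk2 3
    refine h1.trans (le_of_eq ?_)
    ring
  have h9 : (k : ℝ) * q ^ 2 * t ≤ 1728000 * (t * ℓ ^ 2 * Q ^ 3) := by
    have h1 : (k : ℝ) ^ 3 * ℓ ^ 2 ≤ 27000 * Q ^ 3 * ℓ ^ 2 :=
      mul_le_mul_of_nonneg_right h8 (by positivity)
    have h2 : (k : ℝ) * q ^ 2 ≤ 64 * (27000 * Q ^ 3 * ℓ ^ 2) := by linarith
    have h4 := mul_le_mul_of_nonneg_right h2 (by linarith : (0 : ℝ) ≤ t)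
    refine h4.trans (le_of_eq ?_)
    ring
  have h10 : 16384 * ((k : ℝ) * q ^ 2 * t) * Z ≤
      16384 * (1728000 * (t * ℓ ^ 2 * Q ^ 3)) * (2 * (N + S)) :=
    mul_le_mul (by linarith) hZ2 (by linarith) (by positivity)
  rw [hsplit, ← hy]
  refine h5.trans (h10.trans ?_)
  have h11 : (0 : ℝ) ≤ t * ℓ ^ 2 * Q ^ 3 * (N + S) := by positivity
  linarith

end Pool.Agent.R563.LB
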