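import Mathlib
import Pool.Agent.W964.Si.Defs

set_option autoImplicit false

/-!
# SetIntersection with private labels of the sets: statement
-/

namespace Pool.Agent.R563.LB

open Pool.Agent.W964.Si

/-- A data structure for families of `m` subsets of a universe with `u` elements. There is a common
memory of `S` cells with `W` possible contents each, and every set of the family has a private label
with `L` possible values. All contents and labels are arbitrary functions of the whole family. A query
`(i, j)` knows the labels of the sets with the indices `i` and `j` for free, and then probes cells of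
the common memory adaptively. -/
structure LabelDS (m u S W L : ℕ) where
  /-- the contents of the common memory -/
  memory : (Fin m → Finset (Fin u)) → Fin S → Fin W
  /-- the labels of the sets -/
  label : (Fin m → Finset (Fin u)) → Fin m → Fin L
  /-- the query algorithm for the indices `i`, `j` and the labels of the two sets -/
  query : Fin m → Fin m → Fin L → Fin L → Alg S W (Finset (Fin u))

/-- All queries about families of total size at most `N` are answered correctly, with at most
`C (T + op)` probes to the common memory, where `op` is the size of the intersection. -/
def Works {m u S W L : ℕ} (D : LabelDS m u S W L) (N : ℕ) (C T : ℝ) : Prop :=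
  ∀ F : Fin m → Finset (Fin u), ∑ l, (F l).card ≤ N → ∀ i j : Fin m,
    (D.query i j (D.label F i) (D.label F j)).out (D.memory F) = F i ∩ F j ∧
    (((D.query i j (D.label F i) (D.label F j)).probes (D.memory F) : ℕ) : ℝ) ≤
      C * (T + ((F i ∩ F j).card : ℝ))

/-- **The theorem.** -/
def S_LAB : Prop := ∀ (N S W L t : ℕ) (C T : ℝ), 2 ≤ N → 1 ≤ W → 1 ≤ L → 1 ≤ t → C * T < t + 1 →
  ∃ m u : ℕ, ∀ D : LabelDS m u S W L, Works D N C T →
    (N : ℝ) ^ (1 + 1 / (t : ℝ)) ≤ 10 ^ 12 * t * (N + S) * (Real.logb 2 N) ^ 2 *
      (Real.logb 2 L + t * Real.logb 2 (N * W)) ^ 3

end Pool.Agent.R563.LB
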